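import Pool.Agent.H756.GN.Stm

/-!
# Project GN, package FLIP: the odd part in one coordinate
-/

set_option autoImplicit false

namespace Pool.Agent.U891.GN

open MeasureTheory Set Filter Topology
open scoped ENNReal
open Pool.Agent.R972.OP (pd)
open Pool.Agent.H756.GN

/-- Cauchy-Schwarz on an interval -/
theorem cs {g : ℝ → ℝ} (hg : Continuous g) {a b : ℝ} (hab : a ≤ b) :
    (∫ t in a..b, g t) ^ 2 ≤ (b - a) * ∫ t in a..b, g t ^ 2 := by
  rcases eq_or_lt_of_le hab with rfl | h
  · simp
  · obtain ⟨A, hA⟩ : ∃ A, A = ∫ t in a..b, g t := ⟨_, rfl⟩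
    obtain ⟨c, hc⟩ : ∃ c, c = A / (b - a) := ⟨_, rfl⟩
    have hpos : 0 < b - a := by linarith
    have h1 : 0 ≤ ∫ t in a..b, (g t - c) ^ 2 :=
      intervalIntegral.integral_nonneg hab fun t _ => sq_nonneg _
    have h2 : ∫ t in a..b, (g t - c) ^ 2 = (∫ t in a..b, g t ^ 2) - 2 * c * A + c ^ 2 * (b - a) := by
      have e : ∀ t, (g t - c) ^ 2 = g t ^ 2 - 2 * c * g t + c ^ 2 := fun t => by ring
      simp only [e]
      rw [intervalIntegral.integral_add, intervalIntegral.integral_sub,
        intervalIntegral.integral_const_mul, intervalIntegral.integral_const, smul_eq_mul, ← hA]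
      · ring
      · exact (hg.pow 2).intervalIntegrable _ _
      · exact (continuous_const.mul hg).intervalIntegrable _ _
      · exact ((hg.pow 2).sub (continuous_const.mul hg)).intervalIntegrable _ _
      · exact continuous_const.intervalIntegrable _ _
    rw [h2] at h1
    rw [← hA]
    have h3 : c * (b - a) = A := by rw [hc]; field_simp
    have h4 : 2 * c * A - c ^ 2 * (b - a) = c * A := by
      rw [← h3]; ring
    have h5 : c * A ≤ ∫ t in a..b, g t ^ 2 := by linarith
    have h6 : A ^ 2 = (b - a) * (c * A) := by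
      rw [← h3]; ring
    rw [h6]
    exact mul_le_mul_of_nonneg_left h5 hpos.le

theorem int_abs : ∫ t in Icc (-1 : ℝ) 1, |t| = 1 := by
  rw [integral_Icc_eq_integral_Ioc, ← intervalIntegral.integral_of_le (by norm_num)]
  rw [← intervalIntegral.integral_add_adjacent_intervals (b := (0 : ℝ))
    (continuous_abs.intervalIntegrable _ _) (continuous_abs.intervalIntegrable _ _)]
  have h1 : ∫ t in (-1 : ℝ)..0, |t| = ∫ t in (-1 : ℝ)..0, -t := by
    refine intervalIntegral.integral_congr fun t ht => ?_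
    rw [uIcc_of_le (by norm_num)] at ht
    exact abs_of_nonpos ht.2
  have h2 : ∫ t in (0 : ℝ)..1, |t| = ∫ t in (0 : ℝ)..1, t := by
    refine intervalIntegral.integral_congr fun t ht => ?_
    rw [uIcc_of_le (by norm_num)] at ht
    exact abs_of_nonneg ht.1
  rw [h1, h2, intervalIntegral.integral_neg, integral_id, integral_id]
  norm_num

/-- dimension one -/
theorem one_dim {φ φ' : ℝ → ℝ} (hφ : ∀ t, HasDerivAt φ (φ' t) t) (hc : Continuous φ')
    {S : Set ℝ} (hS : MeasurableSet S) (h1 : ∀ t ∈ S, |t| ≤ 1)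
    (hstar : ∀ t ∈ S, ∀ s, |s| ≤ |t| → s ∈ S) :
    ∫ t in S, ((φ t - φ (-t)) / 2) ^ 2 ≤ 1 / 2 * ∫ t in S, φ' t ^ 2 := by
  have hφc : Continuous φ := continuous_iff_continuousAt.2 fun t => (hφ t).continuousAt
  have hsub : S ⊆ Icc (-1) 1 := fun t ht => abs_le.1 (h1 t ht)
  have hint : ∀ g : ℝ → ℝ, Continuous g → IntegrableOn g S := fun g hg =>
    (hg.continuousOn.integrableOn_compact isCompact_Icc).mono_set hsub
  obtain ⟨I, hI⟩ : ∃ I, I = ∫ t in S, φ' t ^ 2 := ⟨_, rfl⟩
  have hI0 : 0 ≤ I := by rw [hI]; exact integral_nonneg fun t => sq_nonneg _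
  -- pointwise bound for `t ≥ 0`
  have key0 : ∀ t ∈ S, 0 ≤ t → ((φ t - φ (-t)) / 2) ^ 2 ≤ |t| * (I / 2) := by
    intro t ht h0
    have h2 : φ t - φ (-t) = ∫ s in (-t)..t, φ' s :=
      (intervalIntegral.integral_eq_sub_of_hasDerivAt (fun s _ => hφ s)
        (hc.intervalIntegrable _ _)).symm
    have h3 := cs hc (show -t ≤ t by linarith)
    have h4 : ∫ s in (-t)..t, φ' s ^ 2 ≤ I := by
      rw [hI, intervalIntegral.integral_of_le (by linarith)]
      refine setIntegral_mono_set (hint _ (hc.pow 2)) (Eventually.of_forall fun s => sq_nonneg _) ?_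
      refine LE.le.eventuallyLE ?_
      intro s hs
      refine hstar t ht s ?_
      rw [abs_of_nonneg h0]
      exact abs_le.2 ⟨hs.1.le, hs.2⟩
    rw [← h2] at h3
    have h5 : (t - -t) * ∫ s in (-t)..t, φ' s ^ 2 ≤ 2 * t * I := by
      have : t - -t = 2 * t := by ring
      rw [this]
      exact mul_le_mul_of_nonneg_left h4 (by linarith)
    rw [abs_of_nonneg h0]
    have h6 : ((φ t - φ (-t)) / 2) ^ 2 = (φ t - φ (-t)) ^ 2 / 4 := by ring
    rw [h6]
    linarith
  have key : ∀ t ∈ S, ((φ t - φ (-t)) / 2) ^ 2 ≤ |t| * (I / 2) := by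
    intro t ht
    rcases le_total 0 t with h0 | h0
    · exact key0 t ht h0
    · have h2 := key0 (-t) (hstar t ht (-t) (by rw [abs_neg])) (by linarith)
      rw [neg_neg, abs_neg] at h2
      have h3 : ((φ t - φ (-t)) / 2) ^ 2 = ((φ (-t) - φ t) / 2) ^ 2 := by ring
      rw [h3]
      exact h2
  have hψc : Continuous fun t => ((φ t - φ (-t)) / 2) ^ 2 :=
    (((hφc.sub (hφc.comp continuous_neg)).div_const 2).pow 2)
  rw [← hI]
  calc ∫ t in S, ((φ t - φ (-t)) / 2) ^ 2 ≤ ∫ t in S, |t| * (I / 2) :=
        setIntegral_mono_on (hint _ hψc) (hint _ (continuous_abs.mul continuous_const)) hS key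
    _ = (∫ t in S, |t|) * (I / 2) := integral_mul_const _ _
    _ ≤ (∫ t in Icc (-1 : ℝ) 1, |t|) * (I / 2) := by
        refine mul_le_mul_of_nonneg_right ?_ (by linarith)
        exact setIntegral_mono_set (continuous_abs.continuousOn.integrableOn_compact isCompact_Icc)
          (Eventually.of_forall fun s => abs_nonneg _) hsub.eventuallyLE
    _ = 1 / 2 * I := by rw [int_abs]; ring

section

variable {m : ℕ}

/-- Fubini in the direction `a` -/
theorem fub (a : Fin (m + 1)) {G : (Fin (m + 1) → ℝ) → ℝ} (hG : Integrable G) :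
    ∫ x, G x = ∫ y : Fin m → ℝ, ∫ t : ℝ, G (a.insertNth t y) ∧
    Integrable fun y : Fin m → ℝ => ∫ t : ℝ, G (a.insertNth t y) := by
  have hmp := (volume_preserving_piFinSuccAbove (fun _ : Fin (m + 1) => ℝ) a).symm
  have e : ∀ p : ℝ × (Fin m → ℝ), (MeasurableEquiv.piFinSuccAbove (fun _ : Fin (m + 1) => ℝ) a).symm p
      = a.insertNth p.1 p.2 := fun p => rfl
  have h1 : ∫ p : ℝ × (Fin m → ℝ), G (a.insertNth p.1 p.2) = ∫ x, G x := by
    have := hmp.integral_comp' G
    simpa only [e] using this
  have h2 : Integrable fun p : ℝ × (Fin m → ℝ) => G (a.insertNth p.1 p.2) := by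
    have := hmp.integrable_comp_emb (MeasurableEquiv.measurableEmbedding _) (g := G)
    have h3 := this.2 hG
    exact h3
  refine ⟨?_, h2.integral_prod_right⟩
  rw [← h1]
  exact integral_prod_symm _ h2

end

theorem t_FLIP : S_FLIP := by
  intro n K hK a f hf
  obtain ⟨m, rfl⟩ : ∃ m, n = m + 1 := Nat.exists_eq_succ_of_ne_zero (by
    rintro rfl
    exact a.elim0)
  have hKm : MeasurableSet K := hK.comp.isClosed.measurableSet
  have hfc : Continuous f := hf.continuous
  have hflc : Continuous (fl a) := continuous_id.update a (continuous_apply a).neg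
  have hpd : Continuous (pd f a) := by
    unfold pd
    exact (hf.continuous_fderiv one_ne_zero).clm_apply continuous_const
  have hG1 : Continuous fun x => ((f x - f (fl a x)) / 2) ^ 2 :=
    ((hfc.sub (hfc.comp hflc)).div_const 2).pow 2
  have hG2 : Continuous fun x => pd f a x ^ 2 := hpd.pow 2
  rw [← integral_indicator hKm, ← integral_indicator hKm]
  have i1 : Integrable (K.indicator fun x => ((f x - f (fl a x)) / 2) ^ 2) :=
    (integrable_indicator_iff hKm).2 (hG1.continuousOn.integrableOn_compact hK.comp)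
  have i2 : Integrable (K.indicator fun x => pd f a x ^ 2) :=
    (integrable_indicator_iff hKm).2 (hG2.continuousOn.integrableOn_compact hK.comp)
  obtain ⟨f1, f1'⟩ := fub a i1
  obtain ⟨f2, f2'⟩ := fub a i2
  rw [f1, f2, ← integral_const_mul]
  refine integral_mono f1' (f2'.const_mul _) fun y => ?_
  -- the section
  have hic : Continuous fun t : ℝ => (a.insertNth t y : Fin (m + 1) → ℝ) := by
    have : (fun t : ℝ => (a.insertNth t y : Fin (m + 1) → ℝ)) =
        fun t => Function.update (a.insertNth 0 y : Fin (m + 1) → ℝ) a t := by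
      funext t
      rw [Fin.update_insertNth]
    rw [this]
    exact continuous_const.update a continuous_id
  obtain ⟨S, hSdef⟩ : ∃ S : Set ℝ, S = (fun t : ℝ => (a.insertNth t y : Fin (m + 1) → ℝ)) ⁻¹' K :=
    ⟨_, rfl⟩
  have hS : MeasurableSet S := by rw [hSdef]; exact hic.measurable hKm
  have hφ : ∀ t : ℝ, HasDerivAt (fun t : ℝ => f (a.insertNth t y)) (pd f a (a.insertNth t y)) t := by
    intro t
    have h1 : HasDerivAt (fun t : ℝ => (a.insertNth t y : Fin (m + 1) → ℝ)) (Pi.single a 1) t := by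
      have h2 := hasDerivAt_update (a.insertNth 0 y : Fin (m + 1) → ℝ) a t
      have h4 : (fun t : ℝ => (a.insertNth t y : Fin (m + 1) → ℝ)) =
          Function.update (a.insertNth 0 y : Fin (m + 1) → ℝ) a := by
        funext t
        rw [Fin.update_insertNth]
      rw [h4]
      exact h2
    have h3 := ((hf.differentiable one_ne_zero) (a.insertNth t y)).hasFDerivAt.comp_hasDerivAt t h1
    exact h3
  have hstar : ∀ t ∈ S, ∀ s, |s| ≤ |t| → s ∈ S := by
    intro t ht s hs
    rw [hSdef] at ht ⊢
    refine hK.unc _ ht _ ?_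
    rw [Fin.forall_iff_succAbove a]
    refine ⟨?_, fun j => ?_⟩
    · simpa using hs
    · simp
  have hle : ∀ t ∈ S, |t| ≤ 1 := by
    intro t ht
    rw [hSdef] at ht
    have := hK.cube _ ht a
    simpa using this
  have hmain := one_dim hφ (hpd.comp hic) hS hle hstar
  have c1 : (fun t : ℝ => K.indicator (fun x => ((f x - f (fl a x)) / 2) ^ 2) (a.insertNth t y)) =
      S.indicator fun t => ((f (a.insertNth t y) - f (a.insertNth (-t) y)) / 2) ^ 2 := by
    funext t
    by_cases h : (a.insertNth t y : Fin (m + 1) → ℝ) ∈ K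
    · have h' : t ∈ S := by rw [hSdef]; exact h
      rw [indicator_of_mem h, indicator_of_mem h']
      have : fl a (a.insertNth t y : Fin (m + 1) → ℝ) = a.insertNth (-t) y := by
        unfold fl
        rw [Fin.insertNth_apply_same, Fin.update_insertNth]
      rw [this]
    · have h' : t ∉ S := by rw [hSdef]; exact h
      rw [indicator_of_notMem h, indicator_of_notMem h']
  have c2 : (fun t : ℝ => K.indicator (fun x => pd f a x ^ 2) (a.insertNth t y)) =
      S.indicator fun t => pd f a (a.insertNth t y) ^ 2 := by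
    funext t
    by_cases h : (a.insertNth t y : Fin (m + 1) → ℝ) ∈ K
    · have h' : t ∈ S := by rw [hSdef]; exact h
      rw [indicator_of_mem h, indicator_of_mem h']
    · have h' : t ∉ S := by rw [hSdef]; exact h
      rw [indicator_of_notMem h, indicator_of_notMem h']
  show ∫ t : ℝ, K.indicator (fun x => ((f x - f (fl a x)) / 2) ^ 2) (a.insertNth t y) ≤
    1 / 2 * ∫ t : ℝ, K.indicator (fun x => pd f a x ^ 2) (a.insertNth t y)
  rw [c1, c2, integral_indicator hS, integral_indicator hS]
  exact hmain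

end Pool.Agent.U891.GN
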